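import Pool.Agent.H525.EX.Stm5
import Pool.Agent.H181.QF.ROOT

/-!
# Project EX (helper525): the fourth root of `X ^ 2 + X` modulo a squarefree polynomial
-/

namespace Pool.Agent.H279.EX

open Polynomial Pool.Agent.H525.QF Pool.Agent.H525.EX

theorem t_root2 : Pool.Agent.H525.EX.S_root2 := by
  intro K _ _ _ b hb hsq
  have hfin : Finite (K[X] ⧸ Ideal.span {b}) := by
    have : Module.Finite K (K[X] ⧸ Ideal.span {b}) := hb.finite_quotient
    exact Module.finite_of_finite K
  have hred : IsReduced (K[X] ⧸ Ideal.span {b}) :=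
    (Ideal.isRadical_iff_quotient_reduced _).1 (isRadical_iff_span_singleton.1 hsq.isRadical)
  have h2K : (2 : K) = 0 := by
    have := CharP.cast_eq_zero K 2
    exact_mod_cast this
  have h2X : (2 : K[X]) = 0 := by
    have h : (2 : K[X]) = C (2 : K) := (map_ofNat C 2).symm
    rw [h, h2K, C_0]
  have h2 : (2 : K[X] ⧸ Ideal.span {b}) = 0 := by
    have h : (2 : K[X] ⧸ Ideal.span {b}) = Ideal.Quotient.mk (Ideal.span {b}) 2 :=
      (map_ofNat _ 2).symm
    rw [h, h2X, map_zero]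
  obtain ⟨t, ht⟩ := Pool.Agent.H181.QF.exists_pow_four h2
    (Ideal.Quotient.mk (Ideal.span {b}) (X ^ 2 + X))
  obtain ⟨τ, rfl⟩ := Ideal.Quotient.mk_surjective t
  refine ⟨τ, fun v => ?_⟩
  rw [← Ideal.Quotient.eq_zero_iff_dvd, ← Ideal.Quotient.eq_zero_iff_dvd]
  have h1 : Ideal.Quotient.mk (Ideal.span {b}) (F2 v) =
      Ideal.Quotient.mk (Ideal.span {b}) (v.1 + τ * v.2) ^ 4 := by
    have e : Ideal.Quotient.mk (Ideal.span {b}) (F2 v) =
        Ideal.Quotient.mk (Ideal.span {b}) v.1 ^ 4 +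
          Ideal.Quotient.mk (Ideal.span {b}) (X ^ 2 + X) * Ideal.Quotient.mk (Ideal.span {b}) v.2 ^ 4 := by
      unfold F2
      rw [map_add, map_mul, map_pow, map_pow]
    rw [e, ← ht, map_add, map_mul, Pool.Agent.H181.QF.add_pow_four h2, mul_pow]
  rw [h1]
  exact pow_eq_zero_iff (by norm_num)

end Pool.Agent.H279.EX
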